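import Pool.Agent.Helper29.SH.Goals

/-!
# Project SH (MP_0a002a_al), packet FRA: Frobenius action on an abelian group
-/

set_option autoImplicit false

namespace Pool.Agent.Helper49.SH

open Subgroup Pool.H83Shunkov Pool.Agent.Helper29.SH

theorem cpow {M : Type} [Group M] (u a : M) (i : ℕ) : (u⁻¹ * a * u) ^ i = u⁻¹ * a ^ i * u := by
  have h := conj_pow (a := u⁻¹) (b := a) (i := i)
  rwa [inv_inv] at h

theorem core {M : Type} [Group M] {W : Type} [CommGroup W] (N : Submonoid M)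
    (A : M → W →* W) (A1 : ∀ w, A 1 w = w)
    (Am : ∀ g ∈ N, ∀ h ∈ N, ∀ w, A (g * h) w = A h (A g w)) (V : Subgroup M) [Fintype V]
    (hVN : ∀ v ∈ V, v ∈ N) (a : M) (haN : a ∈ N) (p : ℕ) (hp : p.Prime) (hap : a ^ p = 1)
    (hb : ∀ u ∈ V, ∀ w : W, ∃ k : W, w = (A (u⁻¹ * a * u) k)⁻¹ * k)
    (hm : ∀ i, 0 < i → i < p → ∀ k ∈ V, (a ^ i)⁻¹ * k⁻¹ * a ^ i * k ∈ V)
    (hs : ∀ i, 0 < i → i < p → ∀ y ∈ V, ∃ k ∈ V, y = (a ^ i)⁻¹ * k⁻¹ * a ^ i * k)
    (hco : (Nat.card V).Coprime (Nat.card W)) (u : M) (hu : u ∈ V) (w : W) : A u w = w := by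
  have tel : ∀ u ∈ V, ∀ w : W, ∏ i ∈ Finset.range p, A ((u⁻¹ * a * u) ^ i) w = 1 := by
    intro u hu w
    have hbN : u⁻¹ * a * u ∈ N := N.mul_mem (N.mul_mem (hVN _ (V.inv_mem hu)) haN) (hVN u hu)
    obtain ⟨k, hk⟩ := hb u hu w
    have h1 : ∀ i ∈ Finset.range p, A ((u⁻¹ * a * u) ^ i) w =
        A ((u⁻¹ * a * u) ^ i) k / A ((u⁻¹ * a * u) ^ (i + 1)) k := by
      intro i _
      conv_lhs => rw [hk]
      rw [map_mul, map_inv, pow_succ', Am _ hbN _ (N.pow_mem hbN i), div_eq_inv_mul]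
    rw [Finset.prod_congr rfl h1,
      Finset.prod_range_div' (fun i => A ((u⁻¹ * a * u) ^ i) k) p]
    rw [cpow u a p, hap, mul_one, inv_mul_cancel, pow_zero, div_self']
  have hNm : ∀ w : W, (∏ v : V, A (v : M)) w = w ^ (Fintype.card V) := by
    intro w
    have hF : ∀ i, 0 < i → i < p → ∏ u : V, A (((u : M)⁻¹ * a * (u : M)) ^ i) w =
        (∏ v : V, A (v : M)) (A (a ^ i) w) := by
      intro i hi hip
      let ρ : V → V := fun k => ⟨(a ^ i)⁻¹ * (k : M)⁻¹ * a ^ i * (k : M), hm i hi hip k k.2⟩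
      have hρ : Function.Surjective ρ := by
        rintro ⟨y, hy⟩
        obtain ⟨k, hk, hyk⟩ := hs i hi hip y hy
        exact ⟨⟨k, hk⟩, Subtype.ext hyk.symm⟩
      have hρb : Function.Bijective ρ := ⟨Finite.injective_iff_surjective.2 hρ, hρ⟩
      rw [MonoidHom.finsetProd_apply, ← hρb.prod_comp (fun v : V => A (v : M) (A (a ^ i) w))]
      refine Finset.prod_congr rfl fun u _ => ?_
      rw [← Am _ (N.pow_mem haN i) _ (hVN _ (ρ u).2)]
      congr 2
      show ((u : M)⁻¹ * a * (u : M)) ^ i = a ^ i * ((a ^ i)⁻¹ * (u : M)⁻¹ * a ^ i * (u : M))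
      rw [cpow]
      group
    obtain ⟨q, rfl⟩ : ∃ q, p = q + 1 := ⟨p - 1, by have := hp.pos; omega⟩
    have h1 : ∏ u : V, ∏ i ∈ Finset.range (q + 1), A (((u : M)⁻¹ * a * (u : M)) ^ i) w = 1 :=
      Finset.prod_eq_one fun u _ => tel u u.2 w
    rw [Finset.prod_comm, Finset.prod_range_succ'] at h1
    have h2 : ∏ i ∈ Finset.range q, ∏ u : V, A (((u : M)⁻¹ * a * (u : M)) ^ (i + 1)) w =
        (∏ v : V, A (v : M)) (∏ i ∈ Finset.range q, A (a ^ (i + 1)) w) := by
      rw [map_prod]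
      refine Finset.prod_congr rfl fun i hi => ?_
      exact hF (i + 1) (by omega) (by have := Finset.mem_range.1 hi; omega)
    have h3 := tel 1 V.one_mem w
    rw [Finset.prod_range_succ', inv_one, one_mul, mul_one, pow_zero, A1] at h3
    rw [h2, eq_inv_of_mul_eq_one_left h3, map_inv] at h1
    have h4 : ∏ u : V, A (((u : M)⁻¹ * a * (u : M)) ^ 0) w = w ^ (Fintype.card V) := by
      rw [← Finset.card_univ, ← Finset.prod_const]
      refine Finset.prod_congr rfl fun u _ => ?_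
      rw [pow_zero, A1]
    rw [h4] at h1
    exact (inv_mul_eq_one.1 h1)
  have hfix : A u ((∏ v : V, A (v : M)) w) = (∏ v : V, A (v : M)) w := by
    rw [MonoidHom.finsetProd_apply, map_prod,
      ← Equiv.prod_comp (Equiv.mulRight (⟨u, hu⟩ : V)) (fun v : V => A (v : M) w)]
    refine Finset.prod_congr rfl fun v _ => ?_
    rw [← Am _ (hVN _ v.2) _ (hVN u hu)]
    rfl
  rw [hNm, map_pow] at hfix
  have h5 : (A u w / w) ^ Nat.card V = 1 := by
    rw [Nat.card_eq_fintype_card, div_pow, hfix, div_self']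
  have h6 : (A u w / w) ^ Nat.card W = 1 := pow_card_eq_one'
  have h7 := pow_gcd_eq_one.2 ⟨h5, h6⟩
  rw [hco.gcd_eq_one, pow_one] at h7
  exact div_eq_one.1 h7

/-- conjugation as a homomorphism -/
def cj {M : Type} [Group M] (W : Subgroup M) (g : M) (h : ∀ w ∈ W, g⁻¹ * w * g ∈ W) : W →* W where
  toFun w := ⟨g⁻¹ * (w : M) * g, h w w.2⟩
  map_one' := Subtype.ext (by
    show g⁻¹ * 1 * g = 1
    rw [mul_one, inv_mul_cancel])
  map_mul' x y := Subtype.ext (by
    show g⁻¹ * ((x : M) * (y : M)) * g = g⁻¹ * (x : M) * g * (g⁻¹ * (y : M) * g)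
    group)

open Classical in
/-- conjugation -/
noncomputable def AA {M : Type} [Group M] (W : Subgroup M) (g : M) : W →* W :=
  if h : ∀ w ∈ W, g⁻¹ * w * g ∈ W then cj W g h else 1

theorem AA_coe {M : Type} [Group M] (W : Subgroup M) (g : M) (h : ∀ w ∈ W, g⁻¹ * w * g ∈ W)
    (w : W) : (AA W g w : M) = g⁻¹ * (w : M) * g := by
  unfold AA
  rw [dif_pos h]
  rfl

/-- the elements that map `W` to `W` -/
def NN {M : Type} [Group M] (W : Subgroup M) : Submonoid M where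
  carrier := {g | ∀ w ∈ W, g⁻¹ * w * g ∈ W}
  one_mem' := by
    intro w hw
    rw [inv_one, one_mul, mul_one]
    exact hw
  mul_mem' := by
    intro g h hg hh w hw
    have h1 := hh _ (hg w hw)
    have h2 : (g * h)⁻¹ * w * (g * h) = h⁻¹ * (g⁻¹ * w * g) * h := by group
    rw [h2]
    exact h1

theorem t_FRA : S_BIJ → S_POW → S_FRA := by
  intro hBIJ hPOW M _ a W V p hp hap hWf hVf haW haV hfW hfV hVW hcomm hco v hv w hw
  letI : CommGroup W := { (inferInstance : Group W) with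
    mul_comm := fun x y => Subtype.ext (hcomm x x.2 y y.2) }
  haveI : Finite V := hVf.to_subtype
  haveI := Fintype.ofFinite V
  have haN : a ∈ NN W := haW
  have hVN : ∀ v ∈ V, v ∈ NN W := fun v hv w hw => hVW v hv w hw
  have haVN : a ∈ NN V := haV
  have key : AA W v ⟨w, hw⟩ = ⟨w, hw⟩ := by
    refine core (NN W) (AA W) ?_ ?_ V hVN a haN p hp hap ?_ ?_ ?_ hco v hv ⟨w, hw⟩
    · intro w
      apply Subtype.ext
      rw [AA_coe W 1 (NN W).one_mem, inv_one, one_mul, mul_one]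
    · intro g hg h hh w
      apply Subtype.ext
      rw [AA_coe W (g * h) ((NN W).mul_mem hg hh), AA_coe W h hh, AA_coe W g hg]
      group
    · intro u hu w
      have hbN : u⁻¹ * a * u ∈ NN W :=
        (NN W).mul_mem ((NN W).mul_mem (hVN _ (V.inv_mem hu)) haN) (hVN u hu)
      obtain ⟨k, hk, hwk⟩ := hBIJ M (u⁻¹ * a * u) W hWf hbN (by
        intro k hk hkb
        have h1 : (u⁻¹)⁻¹ * k * u⁻¹ ∈ W := hVW _ (V.inv_mem hu) k hk
        have h2 := hfW _ h1 (by
          rw [inv_inv]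
          calc u * k * u⁻¹ * a = u * (k * (u⁻¹ * a * u)) * u⁻¹ := by group
            _ = u * ((u⁻¹ * a * u) * k) * u⁻¹ := by rw [hkb]
            _ = a * (u * k * u⁻¹) := by group)
        rw [inv_inv] at h2
        have h3 : k = u⁻¹ * (u * k * u⁻¹) * u := by group
        rw [h3, h2, mul_one, inv_mul_cancel]) w w.2
      refine ⟨⟨k, hk⟩, Subtype.ext ?_⟩
      show (w : M) = ((AA W (u⁻¹ * a * u) ⟨k, hk⟩ : W) : M)⁻¹ * k
      rw [AA_coe W _ hbN, hwk]
      group
    · intro i hi hip k hk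
      exact V.mul_mem ((NN V).pow_mem haVN i _ (V.inv_mem hk)) hk
    · intro i hi hip y hy
      have h1 : FPF (a ^ i) V := hPOW M a V p i hp hap
        (fun h => absurd (Nat.le_of_dvd hi h) (by omega)) hfV
      exact hBIJ M (a ^ i) V hVf ((NN V).pow_mem haVN i) h1 y hy
  have h1 := congrArg (fun z : W => (z : M)) key
  have h2 : v⁻¹ * w * v = w := by
    rw [← AA_coe W v (hVN v hv) ⟨w, hw⟩]
    exact h1
  calc v * w = v * (v⁻¹ * w * v) := by rw [h2]
    _ = w * v := by group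

end Pool.Agent.Helper49.SH
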